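import Pool.Agent.TH381.RM4.Final

/-!
Quadratic growth: the space in terms of the number of the row.
-/

set_option autoImplicit false

namespace Pool.Agent.TH381.RM4

open Pool.Agent.H584R2.Dg Pool.Agent.W614.Dg Pool.Agent.H539R2 Pool.Agent.TH381.RM
  Pool.Agent.TH381.RM2

theorem inSpace_mono {S : Type} {s s' : ℕ → ℝ} {w : ℕ → S} (C : ℝ)
    (h0 : ∀ n, 1 ≤ n → 0 ≤ s n) (h : ∀ n, 1 ≤ n → s n ≤ C * s' n) (hw : InSpace s w) :
    InSpace s' w := by
  obtain ⟨k, M, C0, hM, hS⟩ := hw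
  refine ⟨k, M, |C0| * C, hM, ?_⟩
  intro n hn t ht j
  have hle : C0 * s n ≤ |C0| * C * s' n := by
    calc C0 * s n ≤ |C0| * s n := mul_le_mul_of_nonneg_right (le_abs_self C0) (h0 n hn)
      _ ≤ |C0| * (C * s' n) := mul_le_mul_of_nonneg_left (h n hn) (abs_nonneg C0)
      _ = _ := by ring
  obtain ⟨h1, h2⟩ := hS n hn t ht j
  exact ⟨h1.trans_le hle, fun x hx => h2 x (hle.trans hx)⟩

theorem le_of_pow4 {x y : ℝ} (hy : 0 ≤ y) (h : x ^ 4 ≤ y ^ 4) : x ≤ y := by
  apply le_of_sq_le hy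
  apply le_of_sq_le (sq_nonneg y)
  calc (x ^ 2) ^ 2 = x ^ 4 := by ring
    _ ≤ y ^ 4 := h
    _ = _ := by ring

theorem key_bounds {S : Type} {τ : Dgsm S} {a : S} (hg : QuadGrowth τ a)
    (hN1 : ∀ n, 1 ≤ (τ.map^[n] [a]).length) : ∃ C : ℝ, ∀ n : ℕ, 1 ≤ n →
      rowSpace 4 τ a n ≤ C * (√(n : ℝ) * (Real.log n + 1)) ∧
      √(n : ℝ) * (Real.log n + 1) ≤ C * rowSpace 4 τ a n := by
  obtain ⟨A, hA⟩ := hg
  have hA1 : 1 ≤ A := by
    have := (hA 0).2
    simp at this
    exact this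
  have hlA : 0 ≤ Real.log A := Real.log_nonneg hA1
  have hlA2 : 0 ≤ Real.log (2 * A + 2) := Real.log_nonneg (by linarith)
  refine ⟨A * (Real.log A + 2) + (2 * A + 2) * (Real.log (2 * A + 2) + 1), ?_⟩
  intro n hn
  have hn' : (1 : ℝ) ≤ n := by exact_mod_cast hn
  obtain ⟨N, hN⟩ : ∃ N : ℝ, N = ((τ.map^[n - 1] [a]).length : ℝ) := ⟨_, rfl⟩
  have hN1' : 1 ≤ N := by rw [hN]; exact_mod_cast hN1 (n - 1)
  obtain ⟨h1, h2⟩ := hA (n - 1)
  rw [← hN, Nat.cast_sub hn, Nat.cast_one] at h1 h2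
  have h2' : N ≤ A * (n : ℝ) ^ 2 := by
    have : ((n : ℝ) - 1 + 1) = n := by ring
    rwa [this] at h2
  have h1' : (n : ℝ) ^ 2 ≤ (2 * A + 2) * N := by nlinarith [sq_nonneg ((n : ℝ) - 2)]
  obtain ⟨g, hgdef⟩ : ∃ g : ℝ, g = N ^ (1 / ((4 : ℕ) : ℝ)) := ⟨_, rfl⟩
  have hg0 : 0 ≤ g := by rw [hgdef]; exact Real.rpow_nonneg (by linarith) _
  have hg4 : g ^ 4 = N := by
    rw [hgdef, ← Real.rpow_natCast, ← Real.rpow_mul (by linarith)]
    norm_num
  obtain ⟨h, hh⟩ : ∃ h : ℝ, h = √(n : ℝ) := ⟨_, rfl⟩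
  have hh0 : 0 ≤ h := by rw [hh]; exact Real.sqrt_nonneg _
  have hh2 : h ^ 2 = n := by rw [hh]; exact Real.sq_sqrt (by linarith)
  have hh4 : h ^ 4 = (n : ℝ) ^ 2 := by rw [← hh2]; ring
  have hrs : rowSpace 4 τ a n = g * (Real.log N + 1) := by
    unfold rowSpace
    rw [← hN, ← hgdef]
  rw [hrs, ← hh]
  have hA4 : A ≤ A ^ 4 := le_self_pow₀ hA1 (by norm_num)
  have hA4' : 2 * A + 2 ≤ (2 * A + 2) ^ 4 := le_self_pow₀ (by linarith) (by norm_num)
  have hgh : g ≤ A * h := by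
    apply le_of_pow4 (by positivity)
    rw [hg4, mul_pow, hh4]
    exact h2'.trans (mul_le_mul_of_nonneg_right hA4 (by positivity))
  have hhg : h ≤ (2 * A + 2) * g := by
    apply le_of_pow4 (by positivity)
    rw [hh4, mul_pow, hg4]
    exact h1'.trans (mul_le_mul_of_nonneg_right hA4' (by linarith))
  have hlN : 0 ≤ Real.log N := Real.log_nonneg hN1'
  have hln : 0 ≤ Real.log n := Real.log_nonneg hn'
  have hl1 : Real.log N + 1 ≤ (Real.log A + 2) * (Real.log n + 1) := by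
    have h3 : Real.log N ≤ Real.log (A * (n : ℝ) ^ 2) := Real.log_le_log (by linarith) h2'
    rw [Real.log_mul (by linarith) (by positivity), Real.log_pow] at h3
    push_cast at h3
    have h4 : (Real.log A + 2) * (Real.log n + 1) =
      Real.log A * Real.log n + Real.log A + 2 * Real.log n + 2 := by ring
    have h5 := mul_nonneg hlA hln
    rw [h4]
    linarith
  have hl2 : Real.log n + 1 ≤ (Real.log (2 * A + 2) + 1) * (Real.log N + 1) := by
    have h3 : Real.log ((n : ℝ) ^ 2) ≤ Real.log ((2 * A + 2) * N) :=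
      Real.log_le_log (by positivity) h1'
    rw [Real.log_mul (by linarith) (by linarith), Real.log_pow] at h3
    push_cast at h3
    have h4 : (Real.log (2 * A + 2) + 1) * (Real.log N + 1) =
      Real.log (2 * A + 2) * Real.log N + Real.log (2 * A + 2) + Real.log N + 1 := by ring
    have h5 := mul_nonneg hlA2 hlN
    rw [h4]
    linarith
  have hX : 0 ≤ h * (Real.log n + 1) := mul_nonneg hh0 (by linarith)
  have hY : 0 ≤ g * (Real.log N + 1) := mul_nonneg hg0 (by linarith)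
  constructor
  · calc g * (Real.log N + 1) ≤ (A * h) * ((Real.log A + 2) * (Real.log n + 1)) :=
          mul_le_mul hgh hl1 (by linarith) (by positivity)
      _ = (A * (Real.log A + 2)) * (h * (Real.log n + 1)) := by ring
      _ ≤ _ := by
          apply mul_le_mul_of_nonneg_right _ hX
          have : 0 ≤ (2 * A + 2) * (Real.log (2 * A + 2) + 1) := by positivity
          linarith
  · calc h * (Real.log n + 1) ≤
          ((2 * A + 2) * g) * ((Real.log (2 * A + 2) + 1) * (Real.log N + 1)) :=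
          mul_le_mul hhg hl2 (by linarith) (by positivity)
      _ = ((2 * A + 2) * (Real.log (2 * A + 2) + 1)) * (g * (Real.log N + 1)) := by ring
      _ ≤ _ := by
          apply mul_le_mul_of_nonneg_right _ hY
          have : 0 ≤ A * (Real.log A + 2) := by positivity
          linarith

theorem rowSpace4_iff {S : Type} {τ : Dgsm S} {a : S} (hg : QuadGrowth τ a)
    (hN1 : ∀ n, 1 ≤ (τ.map^[n] [a]).length) {Q : Type} (s : ℕ → Q) :
    InSpace (rowSpace 4 τ a) s ↔ InSpace (fun n => √(n : ℝ) * (Real.log n + 1)) s := by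
  obtain ⟨C, hC⟩ := key_bounds hg hN1
  constructor
  · refine inSpace_mono C ?_ (fun n hn => (hC n hn).1)
    intro n hn
    unfold rowSpace
    have : (1 : ℝ) ≤ ((τ.map^[n - 1] [a]).length : ℝ) := by exact_mod_cast hN1 (n - 1)
    have h1 := Real.log_nonneg this
    exact mul_nonneg (Real.rpow_nonneg (by linarith) _) (by linarith)
  · refine inSpace_mono C ?_ (fun n hn => (hC n hn).2)
    intro n hn
    have h1 : 0 ≤ Real.log n := Real.log_nonneg (by exact_mod_cast hn)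
    exact mul_nonneg (Real.sqrt_nonneg _) (by linarith)

theorem drives_space4 (hfin : SFin) (hmach : RM3.SMach) {S : Type} [Finite S] (τ : Dgsm S)
    (a : S) (w : ℕ → S) (hne : τ.NonErasing) (hw : τ.IsLimit a w) (hg : QuadGrowth τ a)
    (s : ℕ → τ.Q) (hs : RM3.Drives τ a s)
    (hsp : InSpace (fun n => √(n : ℝ) * (Real.log n + 1)) s) :
    InSpace (fun n => (n : ℝ) ^ (1 / 4 : ℝ) * (Real.log n + 1)) w := by
  obtain ⟨u, hu, hune⟩ := Dg.IsLimit.exists_out hne hw
  have hN1 : ∀ n, 1 ≤ (τ.map^[n] [a]).length := fun n =>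
    (Nat.le_add_left _ _).trans (Dg.iter_length hne hu hune n)
  have := inSpace_seq hfin hmach τ a w hne hw hg s hu hune (by
    intro l
    have := hs l
    rwa [RM3.blk_eq hu, RM3.blk_eq hu] at this) ((rowSpace4_iff hg hN1 s).2 hsp)
  have e : (1 / ((4 : ℕ) : ℝ)) = (1 / 4 : ℝ) := by norm_num
  rw [e] at this
  exact this

theorem space_iff4 (hfin : SFin) (hmach : RM3.SMach) (hconv : SConv) {S : Type} [Finite S]
    (τ : Dgsm S) (a : S) (w : ℕ → S) (hne : τ.NonErasing) (hw : τ.IsLimit a w)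
    (hg : QuadGrowth τ a) :
    InSpace (fun n => (n : ℝ) ^ (1 / 4 : ℝ) * (Real.log n + 1)) w ↔
      InSpace (fun n => √(n : ℝ) * (Real.log n + 1)) (RM3.states τ a) := by
  obtain ⟨u, hu, hune⟩ := Dg.IsLimit.exists_out hne hw
  have hN1 : ∀ n, 1 ≤ (τ.map^[n] [a]).length := fun n =>
    (Nat.le_add_left _ _).trans (Dg.iter_length hne hu hune n)
  constructor
  · intro H
    rw [← rowSpace4_iff hg hN1]
    refine hconv hmach 4 (by norm_num) S τ a w hne hw ?_
    have e : (1 / ((4 : ℕ) : ℝ)) = (1 / 4 : ℝ) := by norm_num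
    rw [e]
    exact H
  · intro H
    exact drives_space4 hfin hmach τ a w hne hw hg _ (RM3.drives_states hne hw) H

end Pool.Agent.TH381.RM4
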