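import Pool.Agent.TH381.RM3.Conv

/-!
Roots of order `m`, and the statements of the last parts for the exponent `1 / m`.
-/

set_option autoImplicit false

namespace Pool.Agent.TH381.RM4

open Pool.Agent.H584R2.Dg Pool.Agent.W614.Dg Pool.Agent.H539R2 Pool.Agent.TH381.RM
  Pool.Agent.TH381.RM2

/-- The least `s` with `n < s ^ m` (`m ≥ 1`). -/
def rt (m n : ℕ) : ℕ :=
  nrec 0 (fun _ acc => if (acc + 1) ^ m ≤ n then acc + 1 else acc) (n + 1) + 1

theorem rt_aux (m n t : ℕ) :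
    let r := nrec 0 (fun _ acc => if (acc + 1) ^ m ≤ n then acc + 1 else acc) t
    r ≤ t ∧ (r = 0 ∨ r ^ m ≤ n) ∧ (r = t ∨ n < (r + 1) ^ m) := by
  induction t with
  | zero => simp
  | succ t ih =>
    obtain ⟨h1, h2, h3⟩ := ih
    simp only [nrec_succ]
    split_ifs with h
    · refine ⟨by omega, Or.inr h, ?_⟩
      rcases h3 with h3 | h3
      · left; omega
      · omega
    · refine ⟨by omega, h2, ?_⟩
      right
      omega

theorem rt_pos (m n : ℕ) : 1 ≤ rt m n := by unfold rt; omega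

theorem lt_rt {m : ℕ} (hm : 1 ≤ m) (n : ℕ) : n < rt m n ^ m := by
  obtain ⟨h1, h2, h3⟩ := rt_aux m n (n + 1)
  unfold rt
  rcases h3 with h3 | h3
  · rw [h3] at h2
    exfalso
    rcases h2 with h2 | h2
    · omega
    · have : n + 1 ≤ (n + 1) ^ m := Nat.le_self_pow (by omega) _
      omega
  · exact h3

theorem rt_le {m : ℕ} (hm : 1 ≤ m) (n : ℕ) : (rt m n - 1) ^ m ≤ n := by
  obtain ⟨h1, h2, h3⟩ := rt_aux m n (n + 1)
  unfold rt
  rw [Nat.add_sub_cancel]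
  rcases h2 with h2 | h2
  · rw [h2, Nat.zero_pow hm]
    omega
  · exact h2

theorem rt_succ {m : ℕ} (hm : 1 ≤ m) (n : ℕ) : rt m (n + 1) ≤ rt m n + 1 := by
  by_contra hc
  push Not at hc
  have h1 := rt_le hm (n + 1)
  have h2 := lt_rt hm n
  have h3 : (rt m n + 1) ^ m ≤ (rt m (n + 1) - 1) ^ m := Nat.pow_le_pow_left (by omega) m
  have h4 : rt m n ^ m < (rt m n + 1) ^ m := Nat.pow_lt_pow_left (by omega) (by omega)
  omega

theorem LS_powc {f : (ℕ → ℕ) → ℕ} (hf : LS f) (k : ℕ) : LS (fun ρ => f ρ ^ k) :=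
  ZZ.LS.powc hf k

theorem LS_rt (m : ℕ) {f : (ℕ → ℕ) → ℕ} (hf : LS f) : LS (fun ρ => rt m (f ρ)) := by
  refine LS.comp1 (F := fun x => rt m x) ?_ hf
  unfold rt
  refine LS.succ ?_
  exact LS.nrecB (c := fun ρ => ρ 0 + 1) (a := fun _ => 0)
    (b := fun _ acc ρ => if (acc + 1) ^ m ≤ ρ 0 then acc + 1 else acc)
    (g := fun ρ => ρ 0 + 1)
    (LS.var 0).succ LS.zero
    (LS.ite (LSP.le (LS_powc (LS.var 0).succ m) (LS.var 2)) (LS.var 0).succ (LS.var 0))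
    (LS.var 0).succ (by
      intro ρ t ht
      exact (rt_aux m (ρ 0) t).1.trans ht)

/-- FIN for the exponent `1 / m`. -/
def SFin : Prop := ∀ (m : ℕ), 1 ≤ m → ∀ (S : Type) (w : ℕ → S) (M c d : ℕ) (co : Option S → ℕ)
  (e : ℕ → Option S) (Lt : ℕ → ℕ → ℕ), Coding M co e → 1 ≤ c → 1 ≤ d →
  LS (fun ρ => Lt (ρ 0) (ρ 1)) →
  (∀ n X, (48 * (d * rt m n) + 24) ^ (c * (d * rt m n)) ≤ X → Lt n X = co (some (w n))) →
  InSpace (fun n => (n : ℝ) ^ (1 / (m : ℝ)) * (Real.log n + 1)) w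

/-- The space bound in terms of the number of the row. -/
noncomputable def rowSpace {S : Type} (m : ℕ) (τ : Dgsm S) (a : S) (n : ℕ) : ℝ :=
  ((τ.map^[n - 1] [a]).length : ℝ) ^ (1 / (m : ℝ)) *
    (Real.log ((τ.map^[n - 1] [a]).length : ℝ) + 1)

/-- CONV for the exponent `1 / m`. -/
def SConv : Prop := RM3.SMach → ∀ (m : ℕ), 1 ≤ m → ∀ (S : Type) [Finite S] (τ : Dgsm S) (a : S)
  (w : ℕ → S), τ.NonErasing → τ.IsLimit a w →
  InSpace (fun n => (n : ℝ) ^ (1 / (m : ℝ)) * (Real.log n + 1)) w →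
  InSpace (rowSpace m τ a) (RM3.states τ a)

end Pool.Agent.TH381.RM4
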