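import Pool.Agent.TH381.RM4.Letter

/-!
Quadratic growth: the exponent `1 / 4`.
-/

set_option autoImplicit false

namespace Pool.Agent.TH381.RM4

open Pool.Agent.H584R2.Dg Pool.Agent.W614.Dg Pool.Agent.H539R2 Pool.Agent.TH381.RM
  Pool.Agent.TH381.RM2

/-- Growth of order `n ^ 2`. -/
def QuadGrowth {S : Type} (τ : Dgsm S) (a : S) : Prop :=
  ∃ A : ℝ, ∀ n : ℕ, (n : ℝ) ^ 2 ≤ A * (τ.map^[n] [a]).length ∧
    ((τ.map^[n] [a]).length : ℝ) ≤ A * ((n : ℝ) + 1) ^ 2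

/-- The logarithm of the size of the numbers. -/
theorem log_size {m n X c d : ℕ} (hm : 1 ≤ m) (hn : 1 ≤ n) (hd : 1 ≤ d)
    (hX : (48 * (d * rt m n) + 24) ^ (c * (d * rt m n)) ≤ X) :
    (c : ℝ) / m * ((n : ℝ) ^ (1 / (m : ℝ)) * (Real.log n + 1)) ≤ Real.log X := by
  obtain ⟨B, hB⟩ : ∃ B, B = d * rt m n := ⟨_, rfl⟩
  rw [← hB] at hX
  have hm0 : (0 : ℝ) < m := by exact_mod_cast hm
  have hm1 : (1 : ℝ) ≤ m := by exact_mod_cast hm
  have hn' : (1 : ℝ) ≤ n := by exact_mod_cast hn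
  have hn0 : (0 : ℝ) ≤ n := by linarith
  have h3 : (0 : ℝ) ≤ (n : ℝ) ^ (1 / (m : ℝ)) := Real.rpow_nonneg hn0 _
  have h1 : (n : ℝ) ^ (1 / (m : ℝ)) ≤ rt m n := by
    have h2 : (n : ℝ) ≤ (rt m n : ℝ) ^ m := by exact_mod_cast (lt_rt hm n).le
    calc (n : ℝ) ^ (1 / (m : ℝ)) ≤ ((rt m n : ℝ) ^ m) ^ (1 / (m : ℝ)) :=
          Real.rpow_le_rpow hn0 h2 (by positivity)
      _ = rt m n := by
          rw [← Real.rpow_natCast, ← Real.rpow_mul (Nat.cast_nonneg _),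
            mul_one_div_cancel hm0.ne', Real.rpow_one]
  have h4 : (rt m n : ℝ) ≤ B := by
    have : rt m n ≤ B := by rw [hB]; exact Nat.le_mul_of_pos_left _ hd
    exact_mod_cast this
  have h5 : (n : ℝ) ^ (1 / (m : ℝ)) ≤ B := h1.trans h4
  have hlogn : 0 ≤ Real.log n := Real.log_nonneg hn'
  have h6 : (1 / (m : ℝ)) * (Real.log n + 1) ≤ Real.log (48 * (B : ℝ) + 24) := by
    have hpos : (0 : ℝ) < (n : ℝ) ^ (1 / (m : ℝ)) := Real.rpow_pos_of_pos (by linarith) _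
    have h7 : Real.log (48 * (n : ℝ) ^ (1 / (m : ℝ))) ≤ Real.log (48 * (B : ℝ) + 24) := by
      apply Real.log_le_log (by positivity)
      linarith
    rw [Real.log_mul (by norm_num) hpos.ne', Real.log_rpow (by linarith)] at h7
    have h8 := RM3.log_48
    have h9 : 1 / (m : ℝ) ≤ 1 := by
      rw [div_le_one hm0]
      exact hm1
    calc (1 / (m : ℝ)) * (Real.log n + 1) = 1 / (m : ℝ) * Real.log n + 1 / (m : ℝ) := by ring
      _ ≤ Real.log (48 * (B : ℝ) + 24) := by linarith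
  have h8 : Real.log (((48 * B + 24) ^ (c * B) : ℕ) : ℝ) ≤ Real.log X := by
    apply Real.log_le_log
    · exact_mod_cast Nat.pos_of_ne_zero (by positivity)
    · exact_mod_cast hX
  have h9 : Real.log (((48 * B + 24) ^ (c * B) : ℕ) : ℝ) =
      c * (B * Real.log (48 * (B : ℝ) + 24)) := by
    push_cast
    rw [Real.log_pow]
    push_cast
    ring
  rw [h9] at h8
  refine le_trans ?_ h8
  calc (c : ℝ) / m * ((n : ℝ) ^ (1 / (m : ℝ)) * (Real.log n + 1)) =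
        c * ((n : ℝ) ^ (1 / (m : ℝ)) * ((1 / (m : ℝ)) * (Real.log n + 1))) := by ring
    _ ≤ c * (B * Real.log (48 * (B : ℝ) + 24)) := by
      apply mul_le_mul_of_nonneg_left _ (Nat.cast_nonneg c)
      apply mul_le_mul h5 h6 (by positivity) (Nat.cast_nonneg B)

/-- The bounds for the rows. -/
theorem rows_bound {S : Type} {τ : Dgsm S} {a : S} {u : List S} (hne : τ.NonErasing)
    (hu : τ.out τ.init a = a :: u) {A : ℕ}
    (hA1 : ∀ n : ℕ, n ^ 2 ≤ A * (τ.map^[n] [a]).length)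
    (hA2 : ∀ n : ℕ, (τ.map^[n] [a]).length ≤ A * (n + 1) ^ 2) {n l : ℕ}
    (hl : (τ.map^[l] [a]).length ≤ n) :
    l ≤ (4 * A * (A + 1) * rt 4 n) * (4 * A * (A + 1) * rt 4 n) ∧
    (Dg.cb τ (τ.next τ.init a) u l).2.length ≤
      (4 * A * (A + 1) * rt 4 n) * (4 * A * (A + 1) * rt 4 n) := by
  obtain ⟨r, hr⟩ : ∃ r, r = rt 4 n := ⟨_, rfl⟩
  have hr1 : 1 ≤ r := by rw [hr]; exact rt_pos 4 n
  have hnr : n < r ^ 4 := by rw [hr]; exact lt_rt (by norm_num) n
  rw [← hr]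
  have hA : 1 ≤ A := by
    have := hA2 0
    simp at this
    omega
  obtain ⟨D, hD⟩ : ∃ D : ℕ → ℕ, D = fun l => (Dg.cb τ (τ.next τ.init a) u l).2.length := ⟨_, rfl⟩
  obtain ⟨N, hN⟩ : ∃ N : ℕ → ℕ, N = fun l => (τ.map^[l] [a]).length := ⟨_, rfl⟩
  have hNs : ∀ l, N (l + 1) = N l + D l := by
    intro l
    rw [hN, hD]
    show (τ.map^[l + 1] [a]).length = _
    rw [(Dg.map_iter hu l).1, List.length_append]
  have hDmono : Monotone D := by
    apply monotone_nat_of_le_succ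
    intro l
    rw [hD]
    exact run_length hne _ _
  have hNsum : ∀ l k, N l + k * D l ≤ N (l + k) := by
    intro l k
    induction k with
    | zero => simp
    | succ k ih =>
      have h1 : l + (k + 1) = l + k + 1 := by ring
      have h2 : D l ≤ D (l + k) := hDmono (by omega)
      rw [h1, hNs]
      nlinarith
  have hl1 : l ≤ A * (r * r) := by
    have h1 : l ^ 2 ≤ A * n := (hA1 l).trans (Nat.mul_le_mul_left _ hl)
    have h2 : l ^ 2 ≤ (A * (r * r)) ^ 2 := by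
      calc l ^ 2 ≤ A * n := h1
        _ ≤ A * r ^ 4 := Nat.mul_le_mul_left _ hnr.le
        _ ≤ A * (A * r ^ 4) := Nat.mul_le_mul_left _ (Nat.le_mul_of_pos_left _ hA)
        _ = _ := by ring
    exact (Nat.pow_le_pow_iff_left (by norm_num)).1 h2
  have hD1 : D l ≤ 4 * A * (l + 1) := by
    have h1 := hNsum l (l + 1)
    have h2 : N (l + (l + 1)) ≤ A * (l + (l + 1) + 1) ^ 2 := by rw [hN]; exact hA2 _
    have h3 : (l + 1) * D l ≤ (l + 1) * (4 * A * (l + 1)) := by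
      calc (l + 1) * D l ≤ N (l + (l + 1)) := (Nat.le_add_left _ _).trans h1
        _ ≤ A * (l + (l + 1) + 1) ^ 2 := h2
        _ = _ := by ring
    exact Nat.le_of_mul_le_mul_left h3 (by omega)
  have hrr : 1 ≤ r * r := Nat.mul_pos hr1 hr1
  have hE : 4 * A * (A + 1) * (r * r) ≤ (4 * A * (A + 1) * r) * (4 * A * (A + 1) * r) := by
    have h1 : 1 ≤ 4 * A * (A + 1) := Nat.mul_pos (by omega) (by omega)
    calc 4 * A * (A + 1) * (r * r) ≤ (4 * A * (A + 1)) * (4 * A * (A + 1) * (r * r)) :=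
          Nat.le_mul_of_pos_left _ h1
      _ = _ := by ring
  constructor
  · refine hl1.trans (le_trans (Nat.mul_le_mul_right _ ?_) hE)
    nlinarith
  · have e : (Dg.cb τ (τ.next τ.init a) u l).2.length = D l := by rw [hD]
    rw [e]
    refine hD1.trans (le_trans ?_ hE)
    calc 4 * A * (l + 1) ≤ 4 * A * (A * (r * r) + r * r) := Nat.mul_le_mul_left _ (by omega)
      _ = _ := by ring

theorem inSpace_seq (hfin : SFin) (hmach : RM3.SMach) {S : Type} [Finite S] (τ : Dgsm S) (a : S)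
    (w : ℕ → S) (hne : τ.NonErasing) (hw : τ.IsLimit a w) (hg : QuadGrowth τ a) (s : ℕ → τ.Q)
    {u : List S} (hu : τ.out τ.init a = a :: u) (hune : u ≠ [])
    (hs : ∀ l, τ.run (s l) (Dg.cb τ (τ.next τ.init a) u l).2 =
      (Dg.cb τ (τ.next τ.init a) u (l + 1)).2)
    (hsp : InSpace (rowSpace 4 τ a) s) :
    InSpace (fun n => (n : ℝ) ^ (1 / ((4 : ℕ) : ℝ)) * (Real.log n + 1)) w := by
  have := τ.finQ
  obtain ⟨A0, hA0⟩ := hg
  obtain ⟨A1, hA1⟩ := exists_nat_ge A0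
  have hg1 : ∀ n : ℕ, n ^ 2 ≤ A1 * (τ.map^[n] [a]).length := by
    intro n
    have : ((n ^ 2 : ℕ) : ℝ) ≤ ((A1 * (τ.map^[n] [a]).length : ℕ) : ℝ) := by
      push_cast
      exact (hA0 n).1.trans (mul_le_mul_of_nonneg_right hA1 (Nat.cast_nonneg _))
    exact_mod_cast this
  have hg2 : ∀ n : ℕ, (τ.map^[n] [a]).length ≤ A1 * (n + 1) ^ 2 := by
    intro n
    have : (((τ.map^[n] [a]).length : ℕ) : ℝ) ≤ ((A1 * (n + 1) ^ 2 : ℕ) : ℝ) := by
      push_cast
      exact (hA0 n).2.trans (mul_le_mul_of_nonneg_right hA1 (by positivity))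
    exact_mod_cast this
  have hA1pos : 1 ≤ A1 := by
    have := hg2 0
    simp at this
    omega
  obtain ⟨E, hEdef⟩ : ∃ E, E = 4 * A1 * (A1 + 1) := ⟨_, rfl⟩
  have hE1 : 1 ≤ E := by rw [hEdef]; exact Nat.mul_pos (by omega) (by omega)
  obtain ⟨K0, hK0⟩ := exists_bound τ
  obtain ⟨K, hKdef⟩ : ∃ K, K = K0 + u.length := ⟨_, rfl⟩
  have hul : 1 ≤ u.length := List.length_pos_of_ne_nil hune
  have hK1 : 1 ≤ K := by omega
  have hK : ∀ q x, (τ.out q x).length ≤ K := fun q x => (hK0 q x).trans (by omega)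
  obtain ⟨M, co, e, h0, h1, h2, h3⟩ := exists_letters S
  have hco : Coding M co e := ⟨h0, h1, h2, h3⟩
  obtain ⟨n0, cq, dq, hcq⟩ := RM3.exists_qcoding τ.init
  obtain ⟨-, ln, -, hln, hln', hdig, hlt, -⟩ := TH440.RM2.map_code S τ K M co e hne hK hK1 hco
  obtain ⟨mp, hmp, hmp'⟩ := TH323.RM3.map3 S τ K M n0 co e cq dq hne hK hK1 hco hcq
  obtain ⟨Q, hd, hQ, hdLS, hd'⟩ := TH584.RM3.seq3 S τ K M n0 co e cq dq hne hK hK1 hco hcq
  obtain ⟨k, m, C, hm, hC⟩ := hsp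
  obtain ⟨A, sg, hsgLS, -, hsg⟩ := hmach τ.Q k m s cq n0 hcq.lt hm
  obtain ⟨q, hB, hq, hBLS, hB'⟩ := RM3.stage2 TH621.RM3.belt3 TH470.RM3.sim_b3 τ hne hK hK1 hco
    hcq hdig sg hsgLS
  obtain ⟨P, hP⟩ : ∃ P : RM3.Data, P = ⟨K, cl M co u, co (some a), hB, hd, mp, ln, sg⟩ :=
    ⟨_, rfl⟩
  have hPK : P.K = K := by rw [hP]
  have hPsg : P.sg = sg := by rw [hP]
  have hLS : RM3.DataLS P := by
    rw [hP]
    exact ⟨hBLS, hdLS, hmp, hln, hsgLS⟩
  have hOK : RM3.DataOK P τ u M q Q co cq := by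
    rw [hP]
    exact ⟨rfl, hln', hlt, hmp', hB', hd'⟩
  have hcoa : P.coa = co (some a) := by rw [hP]
  obtain ⟨c0, hc0⟩ := exists_nat_ge (4 * (A * (|C| + 1)))
  refine hfin 4 (by norm_num) S w M (8 * q + c0) ((2 * K + 3) * E) co e (Lt4 P E) hco
    (by omega) (Nat.mul_pos (by omega) hE1) (LS_Lt4 hLS E) ?_
  intro n X hX
  by_cases hn : n = 0
  · subst hn
    unfold Lt4
    rw [if_pos rfl, hcoa, word_zero hw]
  have hn1 : 1 ≤ n := Nat.pos_of_ne_zero hn
  have hlogX := log_size (m := 4) (by norm_num) hn1 (Nat.mul_pos (by omega) hE1) hX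
  refine Lt4_spec TH621.RM3.belt3 s hOK hco hcoa hne hw hu hune hs
    (by rw [hPK]; exact hK1) hE1 ?_ ?_ ?_
  · intro l hl
    rw [hEdef]
    exact rows_bound hne hu hg1 hg2 hl
  · intro i hi
    rw [hPsg]
    have hn' : (1 : ℝ) ≤ n := by exact_mod_cast hn1
    have hi1 : i + 1 ≤ (τ.map^[i] [a]).length := Dg.iter_length hne hu hune i
    have hZ1 : (τ.map^[i] [a]).length ≤ n := hi
    obtain ⟨G, hG⟩ : ∃ G : ℝ, G = ((τ.map^[i] [a]).length : ℝ) := ⟨_, rfl⟩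
    have hG1 : (1 : ℝ) ≤ G := by rw [hG]; exact_mod_cast (by omega : 1 ≤ (τ.map^[i] [a]).length)
    have hGn : G ≤ n := by rw [hG]; exact_mod_cast hZ1
    have hlogG : 0 ≤ Real.log G := Real.log_nonneg hG1
    have hlogGn : Real.log G ≤ Real.log n := Real.log_le_log (by linarith) hGn
    have hrs : rowSpace 4 τ a (i + 1) = G ^ (1 / ((4 : ℕ) : ℝ)) * (Real.log G + 1) := by
      unfold rowSpace
      rw [Nat.add_sub_cancel, ← hG]
    have hex : (0 : ℝ) ≤ 1 / ((4 : ℕ) : ℝ) := by positivity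
    have hp1 : (0 : ℝ) ≤ G ^ (1 / ((4 : ℕ) : ℝ)) := Real.rpow_nonneg (by linarith) _
    have hp2 : G ^ (1 / ((4 : ℕ) : ℝ)) ≤ (n : ℝ) ^ (1 / ((4 : ℕ) : ℝ)) :=
      Real.rpow_le_rpow (by linarith) hGn hex
    have hp3 : (1 : ℝ) ≤ (n : ℝ) ^ (1 / ((4 : ℕ) : ℝ)) := Real.one_le_rpow hn' hex
    have hlogn : 0 ≤ Real.log n := Real.log_nonneg hn'
    obtain ⟨Z, hZ⟩ : ∃ Z : ℝ, Z = (n : ℝ) ^ (1 / ((4 : ℕ) : ℝ)) * (Real.log n + 1) := ⟨_, rfl⟩
    have hrsZ : rowSpace 4 τ a (i + 1) ≤ Z := by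
      rw [hrs, hZ]
      exact mul_le_mul hp2 (by linarith) (by linarith) (by linarith)
    have hrs0 : 0 ≤ rowSpace 4 τ a (i + 1) := by
      rw [hrs]
      exact mul_nonneg hp1 (by linarith)
    have hlogi : Real.log ((i : ℝ) + 1) + 1 ≤ Z := by
      have h4 : Real.log ((i : ℝ) + 1) ≤ Real.log n := by
        apply Real.log_le_log (by positivity)
        have : i + 1 ≤ n := hi1.trans hZ1
        exact_mod_cast this
      rw [hZ]
      calc Real.log ((i : ℝ) + 1) + 1 ≤ Real.log n + 1 := by linarith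
        _ = 1 * (Real.log n + 1) := by ring
        _ ≤ _ := mul_le_mul_of_nonneg_right hp3 (by linarith)
    rw [← hZ] at hlogX
    have hZ0 : 0 ≤ Z := by
      rw [hZ]
      exact mul_nonneg (by linarith) (by linarith)
    have hsp := hC (i + 1) (by omega)
    have hle : C * rowSpace 4 τ a (i + 1) ≤ |C| * rowSpace 4 τ a (i + 1) :=
      mul_le_mul_of_nonneg_right (le_abs_self C) hrs0
    refine hsg X i (|C| * rowSpace 4 τ a (i + 1)) (mul_nonneg (abs_nonneg C) hrs0) ?_ ?_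
    · intro t ht j
      exact ⟨(hsp t ht j).1.trans_le hle, fun x hx => (hsp t ht j).2 x (hle.trans hx)⟩
    · refine le_trans ?_ hlogX
      have hA0 : (0 : ℝ) ≤ A := Nat.cast_nonneg A
      calc (A : ℝ) * (|C| * rowSpace 4 τ a (i + 1) + Real.log ((i : ℝ) + 1) + 1) ≤
            A * (|C| * Z + Z) := by
            apply mul_le_mul_of_nonneg_left _ hA0
            have := mul_le_mul_of_nonneg_left hrsZ (abs_nonneg C)
            linarith
        _ = (4 * (A * (|C| + 1))) / 4 * Z := by ring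
        _ ≤ (c0 : ℝ) / 4 * Z := by
            apply mul_le_mul_of_nonneg_right _ hZ0
            linarith
        _ ≤ _ := by
            apply mul_le_mul_of_nonneg_right _ hZ0
            push_cast
            have : (0 : ℝ) ≤ q := Nat.cast_nonneg q
            linarith
  · have hB2 : B2 P.K (E * rt 4 n) = (2 * K + 3) * E * rt 4 n := by
      rw [hPK]
      unfold B2
      ring
    rw [hB2]
    refine le_trans (Nat.pow_le_pow_right (by omega) ?_) hX
    exact Nat.mul_le_mul_right _ (by omega)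

end Pool.Agent.TH381.RM4
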