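import Pool.Agent.TH381.RM4.Defs
import Pool.Agent.TH381.RM3.Main

/-!
Quadratic growth: the letter function.
-/

set_option autoImplicit false
set_option linter.unusedVariables false

namespace Pool.Agent.TH381.RM4

open Pool.Agent.H584R2.Dg Pool.Agent.W614.Dg Pool.Agent.H539R2 Pool.Agent.TH381.RM
  Pool.Agent.TH381.RM2

/-- the last part of the walk -/
def l4 (P : RM3.Data) (E n X : ℕ) : ℕ × ℕ :=
  walk (fun x => P.D2 X (E * rt 4 n) x 0 P.y0) n n 1 (n + 1)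

/-- the letter -/
def Lt4 (P : RM3.Data) (E n X : ℕ) : ℕ := if n = 0 then P.coa else
  P.l2 X (E * rt 4 n) (l4 P E n X).1 0 P.y0 (n - (l4 P E n X).2)

theorem LS_Lt4 {P : RM3.Data} (hP : RM3.DataLS P) (E : ℕ) :
    LS (fun ρ => Lt4 P E (ρ 0) (ρ 1)) := by
  have hn : LS (fun ρ => ρ 0) := LS.var 0
  have hX : LS (fun ρ => ρ 1) := LS.var 1
  have hS : LS (fun ρ => E * rt 4 (ρ 0)) := (LS.const E).mul (LS_rt 4 hn)
  have hw : LS (fun ρ => (l4 P E (ρ 0) (ρ 1)).1) ∧ LS (fun ρ => (l4 P E (ρ 0) (ρ 1)).2) :=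
    LS_walk (D := fun x ρ => P.D2 (ρ 1) (E * rt 4 (ρ 0)) x 0 P.y0) hn.succ hn hn (LS.const 1)
      (fun x hx => RM3.Data.LS_D2 hP hX.wk.wk hS.wk.wk hx LS.zero (LS.const P.y0))
  exact LS.ite (LSP.eq hn LS.zero) (LS.const P.coa)
    (RM3.Data.LS_l2 hP hX hS hw.1 LS.zero (LS.const P.y0) (hn.sub hw.2))

/-- The letter function is correct. -/
theorem Lt4_spec (hbelt : RM3.SBelt) {S : Type} {P : RM3.Data} {τ : Dgsm S}
    {M q Q : ℕ} {co : Option S → ℕ} {e : ℕ → Option S} {cq : τ.Q → ℕ} {a : S} {u : List S}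
    {w : ℕ → S} (s : ℕ → τ.Q)
    (hP : RM3.DataOK P τ u M q Q co cq) (hco : Coding M co e) (hcoa : P.coa = co (some a))
    (hne : τ.NonErasing) (hw : τ.IsLimit a w) (hu : τ.out τ.init a = a :: u) (hune : u ≠ [])
    (hs : ∀ l, τ.run (s l) (Dg.cb τ (τ.next τ.init a) u l).2 =
      (Dg.cb τ (τ.next τ.init a) u (l + 1)).2)
    (hK1 : 1 ≤ P.K) {E n X : ℕ} (hE : 1 ≤ E)
    (hEb : ∀ l, (τ.map^[l] [a]).length ≤ n →
      l ≤ (E * rt 4 n) * (E * rt 4 n) ∧
      (Dg.cb τ (τ.next τ.init a) u l).2.length ≤ (E * rt 4 n) * (E * rt 4 n))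
    (hsg : ∀ i, (τ.map^[i] [a]).length ≤ n → P.sg X i = cq (s i))
    (hX1 : (48 * B2 P.K (E * rt 4 n) + 24) ^ (8 * q * B2 P.K (E * rt 4 n)) ≤ X) :
    Lt4 P E n X = co (some (w n)) := by
  unfold Lt4
  by_cases hn : n = 0
  · rw [if_pos hn, hcoa, hn, word_zero hw]
  rw [if_neg hn]
  obtain ⟨r, hr⟩ : ∃ r, r = E * rt 4 n := ⟨_, rfl⟩
  have hr1 : 1 ≤ r := by rw [hr]; exact Nat.mul_pos hE (rt_pos 4 n)
  have hl4 : l4 P E n X = walk (fun x => P.D2 X r x 0 P.y0) n n 1 (n + 1) := by rw [hr]; rfl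
  rw [hl4]
  rw [← hr] at hX1 hEb ⊢
  -- the rows
  obtain ⟨R, hR⟩ : ∃ R : ℕ → List S, R = fun l => (Dg.cb τ (τ.next τ.init a) u l).2 := ⟨_, rfl⟩
  obtain ⟨D, hD⟩ : ∃ D : ℕ → ℕ, D = fun l => (R l).length := ⟨_, rfl⟩
  obtain ⟨N, hN⟩ : ∃ N : ℕ → ℕ, N = fun l => (τ.map^[l] [a]).length := ⟨_, rfl⟩
  have hR0 : R 0 = u := by rw [hR]; rfl
  have hRs : ∀ l, τ.run (s l) (R l) = R (l + 1) := by intro l; rw [hR]; exact hs l
  have hRD : ∀ l, (R l).length = D l := by intro l; rw [hD]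
  have hsplit : ∀ l, τ.map^[l + 1] [a] = τ.map^[l] [a] ++ R l := by
    intro l; rw [hR]; exact (Dg.map_iter hu l).1
  have hadd : ∀ k, RM3.runs τ s u k = R k := by
    intro k
    induction k with
    | zero => exact hR0.symm
    | succ k ih =>
      show τ.run (s k) (RM3.runs τ s u k) = R (k + 1)
      rw [ih, hRs]
  have hN0 : N 0 = 1 := by rw [hN]; rfl
  have hNs : ∀ l, N (l + 1) = N l + D l := by
    intro l
    rw [hN, hD]
    show (τ.map^[l + 1] [a]).length = _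
    rw [hsplit, List.length_append]
  have hD1 : ∀ l, 1 ≤ D l := by
    intro l; rw [hD, hR]; exact Dg.cb_pos hne _ hune l
  have hNmono : Monotone N := by
    apply monotone_nat_of_le_succ
    intro l
    rw [hNs]
    omega
  have hsgN : ∀ i, N i ≤ n → P.sg X i = cq (s i) := by
    intro i hi
    rw [hN] at hi
    exact hsg i hi
  have hbd : ∀ x, N x ≤ n → x ≤ r * r ∧ D x ≤ r * r := by
    intro x hx
    rw [hN] at hx
    have := hEb x hx
    rw [hD, hR]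
    exact this
  have hD2 : ∀ x, N x ≤ n → P.D2 X r x 0 P.y0 = D x ∧
      ∀ j, P.l2 X r x 0 P.y0 j = co ((R x)[j]?) := by
    intro x hx
    obtain ⟨b1, b2⟩ := hbd x hx
    have := RM3.D2_spec hbelt hP hco hne (o := 0) s hr1 hX1 b1
      (fun j hj => by
        rw [Nat.zero_add]
        exact hsgN j ((hNmono hj.le).trans hx))
      (y := u) (by
        rw [hadd, hRD]
        exact b2.trans (Nat.le_mul_of_pos_left _ hK1))
    rw [hadd, hRD, ← hP.y0] at this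
    exact this
  have hw3 := fun m => walk_spec (b := n) hNs (by rw [hN0]; omega : N 0 ≤ n) m
  have hw3' := walk_end (b := n) hNs (by rw [hN0]; omega : N 0 ≤ n) hD1
  rw [hN0] at hw3 hw3'
  have hloop : walk (fun x => P.D2 X r x 0 P.y0) n n 1 (n + 1) = walk D n n 1 (n + 1) := by
    apply walk_congr
    intro m _
    exact (hD2 _ (hw3 m).2.1).1
  rw [hloop]
  obtain ⟨h3a, h3b, h3c⟩ := hw3 (n + 1)
  obtain ⟨x3, hx3⟩ : ∃ x3, x3 = (walk D n n 1 (n + 1)).1 := ⟨_, rfl⟩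
  rw [← hx3] at h3a h3b h3c hw3' ⊢
  rw [h3a, (hD2 x3 h3b).2]
  have hlt : n - N x3 < (R x3).length := by
    rw [hRD]
    have : ¬ (N x3 + D x3 ≤ n) := by
      intro hc
      exact hw3' ⟨by omega, hc⟩
    omega
  have h1 := hw.2.2 (x3 + 1)
  rw [hsplit] at h1
  have e2 : (τ.map^[x3] [a]).length = N x3 := by rw [hN]
  have h4 : n < (τ.map^[x3] [a] ++ R x3).length := by
    rw [List.length_append, e2]
    omega
  have h3 := h1 _ h4
  rw [List.getElem?_eq_getElem hlt, ← h3]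
  congr 2
  rw [List.getElem_append_right (by rw [e2]; omega)]
  congr 1
  rw [e2]

end Pool.Agent.TH381.RM4
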